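import Pool.Agent.T2H28.BF.Cols
import Pool.Agent.X288.L2.Inst

/-!
# One number field and all elliptic curves over `ℚ`: the line `Re s = 3/2`

`F` is any number field, `r` the number of orbits of the Galois group on the pairs of embeddings of `F`
(`r ≤ [F : ℚ]`), and `E_i`, `i ∈ ι`, are (finitely or infinitely many) modular elliptic curves over `ℚ`,
no two of them isogenous.  The continuation of `L(E/F, s)` is not known in general.  The theorem is about all the
curves `E_i` and all the points of the boundary `Re s = 3/2` of the half plane of absolute convergence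
together: the sum of the squares of the orders of the poles of `L(E_i/F, s)/L(E_i/ℚ, s)`, over all `i` and
all points of the line, is at most `r - 1`, and the same holds for the zeros.  So `L(E/F, s)` has the same
order as `L(E/ℚ, s)` at all the points of the line for all elliptic curves `E` over `ℚ`, except for the curves
of at most `2 (r - 1)` isogeny classes.
-/

set_option autoImplicit false

namespace Pool.Agent.Results.MP_bf9450_nt.AllCurvesEdgeLine

open NumberField IsDedekindDomain Filter Topology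
open Pool.Agent.X288.L2 (EC pairOrbits)
open Pool.Agent.TH322.BC.Edge (MinimalModels LSeries size HasOrder)
open Pool.Agent.Y722.EP (IsModular NotIsogenous)

/-- **All modular elliptic curves over a number field, on the whole edge line.**  Let `F` be a number
field, `r = pairOrbits ℚ F` (the number of orbits of the Galois group on the pairs of embeddings of `F`), and
let `E_i : y² = x³ + a_i x + b_i`, `i ∈ ι`, be (finitely or infinitely many) modular elliptic curves over
`ℚ`, pairwise not isogenous, with local minimal models `V₀ i` over `ℚ` and `V i` over `F`.  Let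
`X_x(ε) = log |L(E_i/F, s)| / log(1/ε)` and `Y_x(ε) = log |L(E_i/ℚ, s)| / log(1/ε)` at `s = 3/2 + iτ + ε`,
`x = (i, τ)`.  Then `r ≤ [F : ℚ]`, and:
1. (No continuation is assumed.)  For every finite set `S` of pairs `(i, τ)`, `η > 0` and all small
`ε > 0`, the `L`-functions are not zero at these points, the sum of `X_x(ε)²` over the `x ∈ S` with
`X_x(ε) > 0` is at most `r + η`, the sum over the `x ∈ S` with `X_x(ε) < 0` too, and the sums of
`(X_x(ε) - Y_x(ε))²` over the `x ∈ S` where the difference is positive, and over those where it is negative,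
are at most `r - 1 + η`.
2. Let `T` be a set of pairs, finite or infinite (for instance all pairs), such that for `(i, τ) ∈ T` the functions
`L(E_i/ℚ, s)` and `L(E_i/F, s)` have meromorphic continuations to neighbourhoods of `3/2 + iτ`, of orders
`m₀ (i, τ)` and `m (i, τ)`.  Then the sums of `(m₀ - m)²` over the elements of `T` with `m < m₀`, and of those
with `m > m₀`, are at most `r - 1`.  In particular `m = m₀` for all but at most `2 (r - 1)` elements of
`T`; for all but at most `r - 1` of the curves, `m ≥ m₀` on the whole line (no new poles), and for all but at most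
`r - 1` of the curves, `m ≤ m₀` on the whole line (no new zeros).
The quadratic twists of `X_0(11)` and `X_0(14)` are modular. -/
theorem result :
    (∀ (F : Type) [Field F] [NumberField F] [Algebra ℚ F] (ι : Type) (a b : ι → ℤ),
      (∀ i, 4 * a i ^ 3 + 27 * b i ^ 2 ≠ 0) → (∀ i, IsModular (a i) (b i)) →
      (∀ i j, i ≠ j → NotIsogenous (a i) (b i) (a j) (b j)) →
      ∀ (V₀ : ι → HeightOneSpectrum (𝓞 ℚ) → WeierstrassCurve (𝓞 ℚ))
        (V : ι → HeightOneSpectrum (𝓞 F) → WeierstrassCurve (𝓞 F)),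
        (∀ i, MinimalModels (EC ℚ (a i) (b i)) (V₀ i)) →
        (∀ i, MinimalModels ((EC ℚ (a i) (b i)).map (algebraMap ℚ F)) (V i)) →
      1 ≤ pairOrbits ℚ F ∧ pairOrbits ℚ F ≤ Module.finrank ℚ F ∧
      (∀ (S : Finset (ι × ℝ)) (η : ℝ), 0 < η → ∀ᶠ ε : ℝ in 𝓝[>] 0,
        (∀ x ∈ S, LSeries (V₀ x.1) (3 / 2 + x.2 * Complex.I + ε) ≠ 0 ∧
          LSeries (V x.1) (3 / 2 + x.2 * Complex.I + ε) ≠ 0) ∧
        ∑ x ∈ S, (max (size (V x.1) x.2 ε) 0) ^ 2 ≤ pairOrbits ℚ F + η ∧
        ∑ x ∈ S, (max (-size (V x.1) x.2 ε) 0) ^ 2 ≤ pairOrbits ℚ F + η ∧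
        ∑ x ∈ S, (max (size (V x.1) x.2 ε - size (V₀ x.1) x.2 ε) 0) ^ 2 ≤
          pairOrbits ℚ F - 1 + η ∧
        ∑ x ∈ S, (max (size (V₀ x.1) x.2 ε - size (V x.1) x.2 ε) 0) ^ 2 ≤
          pairOrbits ℚ F - 1 + η) ∧
      ∀ (T : Set (ι × ℝ)) (m₀ m : ι × ℝ → ℤ),
        (∀ x ∈ T, HasOrder (V₀ x.1) x.2 (m₀ x)) → (∀ x ∈ T, HasOrder (V x.1) x.2 (m x)) →
        (∀ S : Finset (ι × ℝ), (∀ x ∈ S, x ∈ T) →
          ∑ x ∈ S, (max (m₀ x - m x) 0) ^ 2 ≤ (pairOrbits ℚ F : ℤ) - 1 ∧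
          ∑ x ∈ S, (max (m x - m₀ x) 0) ^ 2 ≤ (pairOrbits ℚ F : ℤ) - 1) ∧
        {x ∈ T | m x ≠ m₀ x}.Finite ∧ {x ∈ T | m x ≠ m₀ x}.ncard ≤ 2 * (pairOrbits ℚ F - 1) ∧
        ({i | ∃ τ, (i, τ) ∈ T ∧ m (i, τ) < m₀ (i, τ)}.Finite ∧
          {i | ∃ τ, (i, τ) ∈ T ∧ m (i, τ) < m₀ (i, τ)}.ncard ≤ pairOrbits ℚ F - 1) ∧
        ({i | ∃ τ, (i, τ) ∈ T ∧ m₀ (i, τ) < m (i, τ)}.Finite ∧
          {i | ∃ τ, (i, τ) ∈ T ∧ m₀ (i, τ) < m (i, τ)}.ncard ≤ pairOrbits ℚ F - 1)) ∧
    ∀ g : ℤ, g ≠ 0 → IsModular (-13392 * g ^ 2) (-1080432 * g ^ 3) ∧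
      IsModular (5805 * g ^ 2) (-285714 * g ^ 3) := by
  classical
  refine ⟨fun F _ _ _ ι a b hΔ hmod hne V₀ V hV₀ hV => ⟨Pool.Agent.T2H28.BF.one_le_orbits F,
    Pool.Agent.T2H28.BF.orbits_le F, fun S η hη => ?_, fun T m₀ m hm₀ hm => ?_⟩,
    fun g hg => ⟨Pool.Agent.X288.L2.modular11 hg, Pool.Agent.X288.L2.modular14 hg⟩⟩
  · choose σ hσ using Pool.Agent.W540.BE.exists_isFrob (F := ℚ)
    have g1 : ∀ᶠ ε : ℝ in 𝓝[>] 0, ∀ x ∈ S, LSeries (V₀ x.1) (3 / 2 + x.2 * Complex.I + ε) ≠ 0 ∧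
        LSeries (V x.1) (3 / 2 + x.2 * Complex.I + ε) ≠ 0 := by
      rw [Filter.eventually_all_finset]
      intro x _
      exact (Pool.Agent.T2H28.BF.szh_base (hΔ x.1) hσ (hV₀ x.1) x.2).1.and
        (Pool.Agent.T2H28.BF.szh_own (hΔ x.1) hσ (hV x.1) x.2).1
    filter_upwards [g1, Pool.Agent.T2H28.BF.cols_all F ι a b hΔ hmod hne V₀ hV₀ V hV S η hη]
      with ε e1 e2
    exact ⟨e1, e2⟩
  · have key := Pool.Agent.T2H28.BF.cols_orders F ι a b hΔ hmod hne V₀ hV₀ V hV T m₀ m hm₀ hm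
    have hr := Pool.Agent.T2H28.BF.one_le_orbits F
    obtain ⟨p1, p2, p3, p4⟩ := Pool.Agent.T2H28.BF.count_of_sums hr (f := fun x => m₀ x - m x)
      fun S hS => (key S hS).1
    obtain ⟨q1, q2, q3, q4⟩ := Pool.Agent.T2H28.BF.count_of_sums hr (f := fun x => m x - m₀ x)
      fun S hS => (key S hS).2
    simp only [sub_pos] at p1 p2 p3 p4 q1 q2 q3 q4
    have hU : {x ∈ T | m x ≠ m₀ x} = {x | x ∈ T ∧ m x < m₀ x} ∪ {x | x ∈ T ∧ m₀ x < m x} := by
      ext x
      simp only [Set.mem_ofPred_eq, Set.mem_union]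
      constructor
      · rintro ⟨h1, h2⟩
        rcases lt_or_gt_of_ne h2 with h | h
        · exact Or.inl ⟨h1, h⟩
        · exact Or.inr ⟨h1, h⟩
      · rintro (⟨h1, h2⟩ | ⟨h1, h2⟩)
        · exact ⟨h1, h2.ne⟩
        · exact ⟨h1, h2.ne'⟩
    refine ⟨key, ?_, ?_, ⟨p3, p4⟩, q3, q4⟩
    · rw [hU]
      exact p1.union q1
    · rw [hU]
      refine (Set.ncard_union_le _ _).trans ?_
      omega

end Pool.Agent.Results.MP_bf9450_nt.AllCurvesEdgeLine
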