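import Pool.Agent.T2H28.BF.Fin
import Pool.Agent.X288.L2.Inst

/-!
# One elliptic curve over `ℚ` and all number fields: the line `Re s = 3/2`

`E : y² = x³ + a x + b` is a modular elliptic curve over `ℚ`.  For a number field `F` let `r(F)` be the number of the
orbits of the Galois group on the pairs of embeddings of `F` (`r(F) ≤ [F : ℚ]`).  The continuation of
`L(E/F, s)` is not known in general.  The theorem is about all number fields `F` and all the points of the boundary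
`Re s = 3/2` of the half plane of absolute convergence together.

* The sum of `m² / (κ(τ) r(F))`, `κ(0) = 1`, `κ(τ) = 1/2` for `τ ≠ 0`, over the orders `m` of `L(E/F, s)`
  at `3/2 + iτ`, for an arbitrary choice of one field `F = F_τ` for every `|τ|`, is at most one.  So, for all
  number fields `F` with `r(F) ≤ c` together, there are at most `c` points of the line with a zero or a pole.
* For every `c` there is one finite Galois extension `M/ℚ` such that, on the whole line, `L(E/F, s)` and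
  `L(E/(F ∩ M), s)` have the same order for all number fields `F` with `r(F) ≤ c`.  In particular, for all but
  finitely many fields `F` with `r(F) ≤ c` without intermediate fields, `L(E/F, s)` and `L(E/ℚ, s)` have the same
  order on the whole line.
* In a family of number fields with `r(F) ≤ c` such that the tensor product of any two of them is a field, at
  most `c - 1` of them have at some point of the line an order different from that of `L(E/ℚ, s)`.
-/

set_option autoImplicit false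

namespace Pool.Agent.Results.MP_bf9450_nt.AllFieldsEdgeLine

open NumberField IsDedekindDomain Filter Topology
open Pool.Agent.X288.L2 (EC kappa₂ pairOrbits)
open Pool.Agent.TH322.BC.Edge (MinimalModels LSeries size HasOrder)
open Pool.Agent.Y722.EP (IsModular)
open Pool.Agent.T2H28.BF (Disj)

/-- **One modular elliptic curve over all number fields, on the whole edge line.**  Let
`E : y² = x³ + a x + b` be a modular elliptic curve over `ℚ`, `r(F) = pairOrbits ℚ F` (the number of orbits of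
the Galois group on the pairs of embeddings of `F`) and `κ(τ) = kappa₂ τ`.  For a number field `F` let
`X_{F, τ}(ε) = log |L(E/F, 3/2 + iτ + ε)| / log(1/ε)`, and let `m_{F, τ}` be the order of `L(E/F, s)` at `3/2 + iτ`, if
there is a meromorphic continuation to a neighbourhood of this point.  Then `1 ≤ r(F) ≤ [F : ℚ]`, and:
1. Let `F_k` be finitely many number fields and `τ_k` real numbers with different absolute values.  Then the
`L`-functions are not zero at `3/2 + iτ_k + ε` for small `ε > 0`, `∑ X_k(ε)² / (κ(τ_k) r(F_k)) ≤ 1 + o(1)` as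
`ε → 0+`, and `∑ m_k² / (κ(τ_k) r(F_k)) ≤ 1`.
2. Let `F_k` be finitely many number fields with `r(F_k) ≥ 2` and `τ_k` real numbers, such that for `k ≠ l`
the absolute values of `τ_k` and `τ_l` are different or the tensor product of `F_k` and `F_l` is a field.  Then
`∑ (X_{F_k, τ_k} - X_{ℚ, τ_k})² / (κ(τ_k) (r(F_k) - 1)) ≤ 1 + o(1)` as `ε → 0+`, and
`∑ (m_{F_k, τ_k} - m_{ℚ, τ_k})² / (κ(τ_k) (r(F_k) - 1)) ≤ 1`.
3. For every `c` there is a set `Θ` of at most `c` real numbers such that `m_{F, τ} = 0` for all number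
fields `F` with `r(F) ≤ c` and all `τ ∉ Θ`.
4. For every `c` there is a finite Galois extension `M` of `ℚ` such that `m_{F, τ} = m_{F ∩ M, τ}` for all number fields `F`
(in the algebraic closure of `ℚ`) with `r(F) ≤ c` and all `τ`.
5. For every `c` the number fields `F` (in the algebraic closure of `ℚ`) without intermediate fields, with
`r(F) ≤ c` and with `m_{F, τ} ≠ m_{ℚ, τ}` for some `τ` are finite in number.
6. In a (finite or infinite) family of number fields with `r(F_k) ≤ c`, such that the tensor product of any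
two of them is a field, at most `c - 1` of the fields have `m_{F_k, τ} ≠ m_{ℚ, τ}` for some `τ`.
The quadratic twists of `X_0(11)` and `X_0(14)` are modular. -/
theorem result :
    (∀ (F : Type) [Field F] [NumberField F] [Algebra ℚ F],
      1 ≤ pairOrbits ℚ F ∧ pairOrbits ℚ F ≤ Module.finrank ℚ F) ∧
    (∀ a b : ℤ, 4 * a ^ 3 + 27 * b ^ 2 ≠ 0 → IsModular a b →
      (∀ (κ : Type) [Fintype κ] (F : κ → Type) [∀ k, Field (F k)] [∀ k, NumberField (F k)]
        [∀ k, Algebra ℚ (F k)] (V : ∀ k, HeightOneSpectrum (𝓞 (F k)) → WeierstrassCurve (𝓞 (F k))),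
        (∀ k, MinimalModels ((EC ℚ a b).map (algebraMap ℚ (F k))) (V k)) → ∀ τ : κ → ℝ,
        (∀ᶠ ε : ℝ in 𝓝[>] 0, ∀ k, LSeries (V k) (3 / 2 + τ k * Complex.I + ε) ≠ 0) ∧
        ((∀ k l, k ≠ l → |τ k| ≠ |τ l|) →
          (∀ η : ℝ, 0 < η → ∀ᶠ ε : ℝ in 𝓝[>] 0,
            ∑ k, size (V k) (τ k) ε ^ 2 / (kappa₂ (τ k) * pairOrbits ℚ (F k)) ≤ 1 + η) ∧
          ∀ m : κ → ℤ, (∀ k, HasOrder (V k) (τ k) (m k)) →
            ∑ k, (m k : ℝ) ^ 2 / (kappa₂ (τ k) * pairOrbits ℚ (F k)) ≤ 1) ∧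
        ∀ V₀ : HeightOneSpectrum (𝓞 ℚ) → WeierstrassCurve (𝓞 ℚ), MinimalModels (EC ℚ a b) V₀ →
          (∀ k, 2 ≤ pairOrbits ℚ (F k)) →
          (∀ k l, k ≠ l → |τ k| ≠ |τ l| ∨ Disj (F k) (F l)) →
          (∀ η : ℝ, 0 < η → ∀ᶠ ε : ℝ in 𝓝[>] 0,
            ∑ k, (size (V k) (τ k) ε - size V₀ (τ k) ε) ^ 2 /
              (kappa₂ (τ k) * (pairOrbits ℚ (F k) - 1)) ≤ 1 + η) ∧
          ∀ m₀ m : κ → ℤ, (∀ k, HasOrder V₀ (τ k) (m₀ k)) → (∀ k, HasOrder (V k) (τ k) (m k)) →
            ∑ k, ((m k : ℝ) - m₀ k) ^ 2 / (kappa₂ (τ k) * (pairOrbits ℚ (F k) - 1)) ≤ 1) ∧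
      ∀ c : ℕ,
        (∃ Θ : Finset ℝ, Θ.card ≤ c ∧ ∀ (F : Type) [Field F] [NumberField F] [Algebra ℚ F]
          (V : HeightOneSpectrum (𝓞 F) → WeierstrassCurve (𝓞 F)) (τ : ℝ) (m : ℤ),
          pairOrbits ℚ F ≤ c → MinimalModels ((EC ℚ a b).map (algebraMap ℚ F)) V →
          HasOrder V τ m → τ ∉ Θ → m = 0) ∧
        (∃ M : IntermediateField ℚ (AlgebraicClosure ℚ), FiniteDimensional ℚ M ∧ IsGalois ℚ M ∧
          ∀ (F F' : IntermediateField ℚ (AlgebraicClosure ℚ)) [NumberField F] [NumberField F'],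
          F' = F ⊓ M → pairOrbits ℚ F ≤ c →
          ∀ (V : HeightOneSpectrum (𝓞 F) → WeierstrassCurve (𝓞 F))
            (V' : HeightOneSpectrum (𝓞 F') → WeierstrassCurve (𝓞 F')) (τ : ℝ) (m m' : ℤ),
            MinimalModels ((EC ℚ a b).map (algebraMap ℚ F)) V →
            MinimalModels ((EC ℚ a b).map (algebraMap ℚ F')) V' →
            HasOrder V τ m → HasOrder V' τ m' → m = m') ∧
        {F : IntermediateField ℚ (AlgebraicClosure ℚ) | ∃ _ : NumberField F,
          (∀ F' : IntermediateField ℚ (AlgebraicClosure ℚ), F' ≤ F → F' = ⊥ ∨ F' = F) ∧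
          pairOrbits ℚ F ≤ c ∧ ∃ (V₀ : HeightOneSpectrum (𝓞 ℚ) → WeierstrassCurve (𝓞 ℚ))
            (V : HeightOneSpectrum (𝓞 F) → WeierstrassCurve (𝓞 F)) (τ : ℝ) (m₀ m : ℤ),
            MinimalModels (EC ℚ a b) V₀ ∧ MinimalModels ((EC ℚ a b).map (algebraMap ℚ F)) V ∧
            HasOrder V₀ τ m₀ ∧ HasOrder V τ m ∧ m ≠ m₀}.Finite ∧
        ∀ (κ : Type) (F : κ → Type) [∀ k, Field (F k)] [∀ k, NumberField (F k)]
          [∀ k, Algebra ℚ (F k)], (∀ k, pairOrbits ℚ (F k) ≤ c) →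
          (∀ k l, k ≠ l → Disj (F k) (F l)) →
          ∀ V : ∀ k, HeightOneSpectrum (𝓞 (F k)) → WeierstrassCurve (𝓞 (F k)),
          (∀ k, MinimalModels ((EC ℚ a b).map (algebraMap ℚ (F k))) (V k)) →
          ∀ V₀ : HeightOneSpectrum (𝓞 ℚ) → WeierstrassCurve (𝓞 ℚ), MinimalModels (EC ℚ a b) V₀ →
            {k | ∃ (τ : ℝ) (m₀ m : ℤ), HasOrder V₀ τ m₀ ∧ HasOrder (V k) τ m ∧ m ≠ m₀}.Finite ∧
            {k | ∃ (τ : ℝ) (m₀ m : ℤ), HasOrder V₀ τ m₀ ∧ HasOrder (V k) τ m ∧ m ≠ m₀}.ncard ≤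
              c - 1) ∧
    ∀ g : ℤ, g ≠ 0 → IsModular (-13392 * g ^ 2) (-1080432 * g ^ 3) ∧
      IsModular (5805 * g ^ 2) (-285714 * g ^ 3) := by
  classical
  refine ⟨fun F _ _ _ => ⟨Pool.Agent.T2H28.BF.one_le_orbits F, Pool.Agent.T2H28.BF.orbits_le F⟩,
    fun a b hab hmod => ⟨fun κ _ F _ _ _ V hV τ => ⟨?_, fun hτ => ⟨fun η hη => ?_, fun m hm => ?_⟩,
    fun V₀ hV₀ hr hd => ⟨fun η hη => ?_, fun m₀ m hm₀ hm => ?_⟩⟩, fun c => ⟨?_, ?_, ?_, ?_⟩⟩,
    fun g hg => ⟨Pool.Agent.X288.L2.modular11 hg, Pool.Agent.X288.L2.modular14 hg⟩⟩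
  · choose σ hσ using Pool.Agent.W540.BE.exists_isFrob (F := ℚ)
    rw [Filter.eventually_all]
    exact fun k => (Pool.Agent.T2H28.BF.szh_own hab hσ (hV k) (τ k)).1
  · exact Pool.Agent.T2H28.BF.rows_own hab hmod F V hV τ hτ hη
  · exact Pool.Agent.T2H28.BF.rows_own_orders hab hmod F V hV τ hτ hm
  · exact Pool.Agent.T2H28.BF.rows_diff hab hmod F V hV τ hV₀ hr hd hη
  · exact Pool.Agent.T2H28.BF.rows_diff_orders hab hmod F V hV τ hV₀ hr hd hm₀ hm
  · obtain ⟨h1, h2⟩ := Pool.Agent.T2H28.BF.heights hab hmod c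
    refine ⟨h1.toFinset, ?_, fun F _ _ _ V τ m hF hV hm hτ => ?_⟩
    · rwa [Set.ncard_eq_toFinset_card _ h1] at h2
    · by_contra hne
      exact hτ ((Set.Finite.mem_toFinset h1).2
        ⟨F, inferInstance, inferInstance, inferInstance, V, m, hF, hV, hm, hne⟩)
  · obtain ⟨M, h1, h2, h3, -⟩ := Pool.Agent.T2H28.BF.gov_all hab hmod c
    exact ⟨M, h1, h2, h3⟩
  · exact Pool.Agent.T2H28.BF.prim hab hmod c
  · intro κ F _ _ _ hc hd V hV V₀ hV₀
    exact Pool.Agent.T2H28.BF.disj_fam hab hmod c κ F hc hd V hV V₀ hV₀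

end Pool.Agent.Results.MP_bf9450_nt.AllFieldsEdgeLine
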