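import Pool.Agent.T2H36.AT.Exc
import Pool.Agent.R433.NF.Size
import Pool.Agent.X288.L2.Inst

/-!
# A rational elliptic curve over all number fields: the line `Re s = 3/2`

`E : y² = x³ + a x + b` is a modular elliptic curve over `ℚ`.  For a number field `F ⊂ ℚ̄`, of any degree
and with any Galois group, `L(E/F, s)` is the Hasse-Weil `L`-function, and for an Artin representation
`ρ` of `Gal(ℚ̄/ℚ)`, `L(E ⊗ ρ, s)` is the Euler product over the primes whose factor is, for all but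
finitely many primes `v`, `det(1 - a_v q_v^{-s} ρ(Frob_v⁻¹) + q_v^{1 - 2s} ρ(Frob_v⁻¹)²)⁻¹`.

The theorem describes, for all number fields and all points of the boundary `Re s = 3/2` of the half
plane of absolute convergence at once, the zeros and poles of the functions `L(E/F, s)`, and of the
corresponding sizes if no continuation is known, by one square-summable function on the irreducible
Artin representations.
-/

set_option autoImplicit false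

namespace Pool.Agent.Results.MP_bf9450_nt.AllNumberFields

open Complex Filter Topology NumberField IsDedekindDomain Polynomial
open Pool.Agent.Y722.EP (IsModular trace)

section fields
variable {F : Type} [Field F]

/-- The curve `y² = x³ + a x + b` over the field `F`. -/
noncomputable def curve (F : Type) [Field F] (a b : ℤ) : WeierstrassCurve F where
  a₁ := 0
  a₂ := 0
  a₃ := 0
  a₄ := a
  a₆ := b

variable [NumberField F]

/-- `V v` is, for every `v`, an integral model of `E` with discriminant minimal at `v`. -/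
def MinimalModels (E : WeierstrassCurve F)
    (V : HeightOneSpectrum (𝓞 F) → WeierstrassCurve (𝓞 F)) : Prop :=
  ∀ v : HeightOneSpectrum (𝓞 F),
    (∃ C : WeierstrassCurve.VariableChange F, C • E = (V v).map (algebraMap (𝓞 F) F)) ∧
    ∀ W : WeierstrassCurve (𝓞 F),
      (∃ C : WeierstrassCurve.VariableChange F, C • E = W.map (algebraMap (𝓞 F) F)) →
        ∀ n : ℕ, (V v).Δ ∈ v.asIdeal ^ n → W.Δ ∈ v.asIdeal ^ n

open Classical in
/-- The Euler product of `L(E/F, s)` over all primes `v` of `F`, computed from the reductions of the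
models `V v`. -/
noncomputable def LSeries (V : HeightOneSpectrum (𝓞 F) → WeierstrassCurve (𝓞 F)) (s : ℂ) : ℂ :=
  ∏' v : HeightOneSpectrum (𝓞 F),
    (1 - ((((Ideal.absNorm v.asIdeal : ℕ) : ℤ) -
          ((Nat.card {p : (𝓞 F ⧸ v.asIdeal) × (𝓞 F ⧸ v.asIdeal) //
            p.2 ^ 2 + Ideal.Quotient.mk v.asIdeal (V v).a₁ * p.1 * p.2
              + Ideal.Quotient.mk v.asIdeal (V v).a₃ * p.2
            = p.1 ^ 3 + Ideal.Quotient.mk v.asIdeal (V v).a₂ * p.1 ^ 2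
              + Ideal.Quotient.mk v.asIdeal (V v).a₄ * p.1
              + Ideal.Quotient.mk v.asIdeal (V v).a₆} : ℕ) : ℤ) : ℤ) : ℂ)
          * ((Ideal.absNorm v.asIdeal : ℕ) : ℂ) ^ (-s)
      + (if (V v).Δ ∈ v.asIdeal then (0 : ℂ) else 1)
          * ((Ideal.absNorm v.asIdeal : ℕ) : ℂ) ^ (1 - 2 * s))⁻¹

/-- `log |L(E/F, 3/2 + iτ + ε)| / log(1/ε)`. -/
noncomputable def fieldSize (V : HeightOneSpectrum (𝓞 F) → WeierstrassCurve (𝓞 F)) (τ ε : ℝ) : ℝ :=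
  Real.log ‖LSeries V (3 / 2 + τ * I + ε)‖ / Real.log (1 / ε)

end fields

/-- `σ` is a Frobenius element at the prime `v` of `ℚ`: there is a maximal ideal `Q` above `v` of the
ring of all algebraic integers with `σ x ≡ x ^ q_v` modulo `Q` for all `x`. -/
def IsFrobenius (v : HeightOneSpectrum (𝓞 ℚ)) (σ : Gal(AlgebraicClosure ℚ/ℚ)) : Prop :=
  ∃ Q : Ideal (𝓞 (AlgebraicClosure ℚ)), Q.IsMaximal ∧
    Q.comap (algebraMap (𝓞 ℚ) (𝓞 (AlgebraicClosure ℚ))) = v.asIdeal ∧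
    ∀ x : 𝓞 (AlgebraicClosure ℚ), σ • x - x ^ Ideal.absNorm v.asIdeal ∈ Q

/-- `ρ` is an Artin representation: it is trivial on an open subgroup of `Gal(ℚ̄/ℚ)`. -/
def IsArtin {n : ℕ} (ρ : Representation ℂ Gal(AlgebraicClosure ℚ/ℚ) (Fin n → ℂ)) : Prop :=
  ∃ U : Subgroup Gal(AlgebraicClosure ℚ/ℚ), IsOpen (U : Set Gal(AlgebraicClosure ℚ/ℚ)) ∧
    ∀ u ∈ U, ρ u = 1

/-- The polynomials `B v` are the Euler factors of `L(E ⊗ ρ, s)`, `E : y² = x³ + a x + b`: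
`B_v(z) = det(1 - a_v z ρ(Frob_v⁻¹) + q_v z² ρ(Frob_v⁻¹)²)` for all but finitely many primes `v`, where
`a_v = q_v + 1 - #E(𝔽_v)`; at the other primes `B v` is an arbitrary polynomial, and no factor
`1 / B_v(q_v^{-s})` has a pole at `s = 3/2 + iτ`. -/
def IsSystem (a b : ℤ) {n : ℕ} (ρ : Representation ℂ Gal(AlgebraicClosure ℚ/ℚ) (Fin n → ℂ))
    (τ : ℝ) (B : HeightOneSpectrum (𝓞 ℚ) → ℂ[X]) : Prop :=
  (∀ᶠ v in cofinite, ∀ σ : Gal(AlgebraicClosure ℚ/ℚ), IsFrobenius v σ → ∀ z : ℂ,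
    (B v).eval z = LinearMap.det (1 - ((trace v a b : ℂ) * z) • ρ σ⁻¹ +
      (((Ideal.absNorm v.asIdeal : ℕ) : ℂ) * z ^ 2) • (ρ σ⁻¹) ^ 2)) ∧
  ∀ v, (B v).eval (((Ideal.absNorm v.asIdeal : ℕ) : ℂ) ^ (-(3 / 2 + τ * I : ℂ))) ≠ 0

/-- The Euler product `∏_v B_v(q_v^{-s})⁻¹`. -/
noncomputable def eulerProduct (B : HeightOneSpectrum (𝓞 ℚ) → ℂ[X]) (s : ℂ) : ℂ :=
  ∏' v : HeightOneSpectrum (𝓞 ℚ), ((B v).eval (((Ideal.absNorm v.asIdeal : ℕ) : ℂ) ^ (-s)))⁻¹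

/-- `log |L(E ⊗ ρ, 3/2 + iτ + ε)| / log (1/ε)`. -/
noncomputable def size (B : HeightOneSpectrum (𝓞 ℚ) → ℂ[X]) (τ ε : ℝ) : ℝ :=
  Real.log ‖eulerProduct B (3 / 2 + τ * I + ε)‖ / Real.log (1 / ε)

/-- The function `L` has a meromorphic continuation from the half plane `Re s > 3/2` to a neighbourhood
of `3/2 + iτ`, of order `m` at this point (`m < 0` for a pole, `m > 0` for a zero). -/
def Continues (L : ℂ → ℂ) (τ : ℝ) (m : ℤ) : Prop :=
  ∃ Λ : ℂ → ℂ, MeromorphicAt Λ (3 / 2 + τ * I) ∧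
    (∀ᶠ s in 𝓝 (3 / 2 + τ * I : ℂ), 3 / 2 < s.re → Λ s = L s) ∧
    meromorphicOrderAt Λ (3 / 2 + τ * I) = m

/-- `L(E ⊗ ρ, s)` has a meromorphic continuation to a neighbourhood of `3/2 + iτ`, of order `m` at this
point. -/
def HasOrder (a b : ℤ) {n : ℕ} (ρ : Representation ℂ Gal(AlgebraicClosure ℚ/ℚ) (Fin n → ℂ))
    (τ : ℝ) (m : ℤ) : Prop :=
  ∃ B : HeightOneSpectrum (𝓞 ℚ) → ℂ[X], IsSystem a b ρ τ B ∧ Continues (eulerProduct B) τ m

/-- The dimension of the space of the vectors of `ρ` fixed by `Gal(ℚ̄/F)`. -/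
noncomputable def fixedDim {n : ℕ} (ρ : Representation ℂ Gal(AlgebraicClosure ℚ/ℚ) (Fin n → ℂ))
    (F : IntermediateField ℚ (AlgebraicClosure ℚ)) : ℕ :=
  Module.finrank ℂ (Representation.invariants (ρ.comp F.fixingSubgroup.subtype))

/-- The finitely many irreducible Artin representations `ρ_k` are pairwise inequivalent, and all
irreducible Artin representations with a non-zero vector fixed by `Gal(ℚ̄/F)` are among them, up to
equivalence. -/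
def IsCover (F : IntermediateField ℚ (AlgebraicClosure ℚ)) {κ : Type} {n : κ → ℕ}
    (ρ : ∀ k, Representation ℂ Gal(AlgebraicClosure ℚ/ℚ) (Fin (n k) → ℂ)) : Prop :=
  (∀ k, IsArtin (ρ k) ∧ (ρ k).IsIrreducible) ∧
  (∀ k l, k ≠ l → IsEmpty ((ρ k).Equiv (ρ l))) ∧
  ∀ (n' : ℕ) (ρ' : Representation ℂ Gal(AlgebraicClosure ℚ/ℚ) (Fin n' → ℂ)), IsArtin ρ' →
    ρ'.IsIrreducible → (∀ k, IsEmpty (ρ'.Equiv (ρ k))) → fixedDim ρ' F = 0

/-- `δ(F, τ)` and `y(ρ, τ)` are the limits along the ultrafilter `𝒰` of the sizes of `L(E/F, s)` and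
`L(E ⊗ ρ, s)` at `s = 3/2 + iτ + ε`, for all number fields `F ⊂ ℚ̄`, all Artin representations `ρ` and all
real `τ`, and they have the following properties.
* `∑ y(ρ_k, τ_k)² ≤ 1` for all finite families of irreducible Artin representations `ρ_k` and heights
  `τ_k`, `ρ_k` and `ρ_l` inequivalent if `τ_k = τ_l`, `k ≠ l`.
* `y(ρ, τ)² ≤ 1/2` for irreducible `ρ` if `τ ≠ 0` or the character of `ρ` is not real, and
  `|y(ρ, 0)| ≤ 1 - (n - 2)² / (2 [G : U])` if `n = dim ρ ≥ 2` and `ρ` is trivial on the open normal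
  subgroup `U`.
* `δ(F, τ) = ∑ y(ρ_k, τ) dim ρ_k^{Gal(ℚ̄/F)}`, the sum over all irreducible Artin representations.
* For every `c` and `η > 0` there are a finite Galois extension `M` of `ℚ` and a finite set `H` of
  heights with `|δ(F, τ) - δ(F ∩ M, τ)| < η` for all number fields `F` of degree at most `c` and all
  `τ`, and `|δ(F, τ)| < η` if `τ ∉ H`. -/
def IsSpectrum (a b : ℤ) (𝒰 : Ultrafilter ℝ)
    (δ : IntermediateField ℚ (AlgebraicClosure ℚ) → ℝ → ℝ)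
    (y : ∀ n : ℕ, Representation ℂ Gal(AlgebraicClosure ℚ/ℚ) (Fin n → ℂ) → ℝ → ℝ) : Prop :=
  (∀ (F : IntermediateField ℚ (AlgebraicClosure ℚ)) [NumberField F]
    (V : HeightOneSpectrum (𝓞 F) → WeierstrassCurve (𝓞 F)) (τ : ℝ),
    MinimalModels (curve F a b) V → Tendsto (fieldSize V τ) 𝒰 (𝓝 (δ F τ))) ∧
  (∀ (n : ℕ) (ρ : Representation ℂ Gal(AlgebraicClosure ℚ/ℚ) (Fin n → ℂ)) (τ : ℝ)
    (B : HeightOneSpectrum (𝓞 ℚ) → ℂ[X]), IsArtin ρ → IsSystem a b ρ τ B →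
    Tendsto (size B τ) 𝒰 (𝓝 (y n ρ τ))) ∧
  (∀ (κ : Type) [Fintype κ] (n : κ → ℕ)
    (ρ : ∀ k, Representation ℂ Gal(AlgebraicClosure ℚ/ℚ) (Fin (n k) → ℂ)) (τ : κ → ℝ),
    (∀ k, IsArtin (ρ k)) → (∀ k, (ρ k).IsIrreducible) →
    (∀ k l, k ≠ l → τ k = τ l → IsEmpty ((ρ k).Equiv (ρ l))) →
    ∑ k, y (n k) (ρ k) (τ k) ^ 2 ≤ 1) ∧
  (∀ (n : ℕ) (ρ : Representation ℂ Gal(AlgebraicClosure ℚ/ℚ) (Fin n → ℂ)), IsArtin ρ →
    ρ.IsIrreducible →
    (∀ τ : ℝ, (τ ≠ 0 ∨ ∃ g, (ρ.character g).im ≠ 0) → y n ρ τ ^ 2 ≤ 1 / 2) ∧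
    (2 ≤ n → ∀ U : Subgroup Gal(AlgebraicClosure ℚ/ℚ), U.Normal →
      IsOpen (U : Set Gal(AlgebraicClosure ℚ/ℚ)) → (∀ u ∈ U, ρ u = 1) →
      |y n ρ 0| ≤ 1 - ((n : ℝ) - 2) ^ 2 / (2 * U.index))) ∧
  (∀ (F : IntermediateField ℚ (AlgebraicClosure ℚ)) [NumberField F],
    ∃ (κ : Type) (_ : Fintype κ) (n : κ → ℕ)
      (ρ : ∀ k, Representation ℂ Gal(AlgebraicClosure ℚ/ℚ) (Fin (n k) → ℂ)), IsCover F ρ ∧
      ∀ τ : ℝ, δ F τ = ∑ k, y (n k) (ρ k) τ * fixedDim (ρ k) F) ∧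
  ∀ (c : ℕ) (η : ℝ), 0 < η → ∃ (M : IntermediateField ℚ (AlgebraicClosure ℚ)) (H : Finset ℝ),
    FiniteDimensional ℚ M ∧ IsGalois ℚ M ∧
    ∀ (F : IntermediateField ℚ (AlgebraicClosure ℚ)) [NumberField F],
      Module.finrank ℚ F ≤ c → ∀ τ : ℝ,
        |δ F τ - δ (F ⊓ M) τ| < η ∧ (τ ∉ H → |δ F τ| < η)

/-- For all irreducible Artin representations `ρ` with a non-zero vector fixed by `Gal(ℚ̄/F)`, the function
`L(E ⊗ ρ, s)` has a meromorphic continuation to a neighbourhood of `3/2 + iτ`. -/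
def TwistsContinue (a b : ℤ) (F : IntermediateField ℚ (AlgebraicClosure ℚ)) (τ : ℝ) : Prop :=
  ∀ (n : ℕ) (ρ : Representation ℂ Gal(AlgebraicClosure ℚ/ℚ) (Fin n → ℂ)), IsArtin ρ →
    ρ.IsIrreducible → fixedDim ρ F ≠ 0 → ∃ m : ℤ, HasOrder a b ρ τ m

section Aux

open Pool.Agent.W401.Cheb Pool.Agent.W540.BE Pool.Agent.W353.L1 Pool.Agent.R433.AT
  Pool.Agent.R433.NF Pool.Agent.T2H36.AT Pool.Agent.W353.SP
open Pool.Agent.W353.AT (MRep Irr Sim)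
open Pool.Agent.Y722.EP (rE)
open Pool.Agent.H341R2 (lam path_tendsto')
open Pool.Agent.W353.NF (fixn cz)

/-- the sizes of the twists -/
theorem size_sys {a b : ℤ} (hΔ : 4 * a ^ 3 + 27 * b ^ 2 ≠ 0) {n : ℕ}
    (ρ : Representation ℂ (GK ℚ) (Fin n → ℂ)) (hρ : IsArtin ρ) {τ : ℝ}
    {B : HeightOneSpectrum (𝓞 ℚ) → ℂ[X]} (hB : IsSystem a b ρ τ B)
    (σ : HeightOneSpectrum (𝓞 ℚ) → GK ℚ) (hσ : ∀ v, IsFrob v (σ v)) :
    (∀ᶠ ε : ℝ in 𝓝[>] 0, eulerProduct B (3 / 2 + τ * I + ε) ≠ 0) ∧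
    Tendsto (fun ε : ℝ => (ED ℚ ε fun v => rE a b v * RR ρ τ σ v) - size B τ ε)
      (𝓝[>] 0) (𝓝 0) := by
  obtain ⟨U, hUn, hU, hρU⟩ := Pool.Agent.W353.AT.exists_common (κ := Unit) (n := fun _ => n)
    (fun _ => ρ) fun _ => hρ
  have hfin : Finite (GK ℚ ⧸ U) := Subgroup.quotient_finite_of_isOpen U hU
  exact size_ab U hΔ ρ (hρU ()) τ B hB.1 hB.2 σ hσ (eulerProduct B) fun _ => rfl

/-- the limit of the sizes -/
theorem cont_lim {L : ℂ → ℂ} {τ : ℝ} {m : ℤ}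
    (h0 : ∀ᶠ ε : ℝ in 𝓝[>] 0, L (3 / 2 + τ * I + ε) ≠ 0) (h : Continues L τ m) :
    Tendsto (fun ε : ℝ => Real.log ‖L (3 / 2 + τ * I + ε)‖ / Real.log (1 / ε)) (𝓝[>] 0)
      (𝓝 (-(m : ℝ))) := by
  obtain ⟨Λ, h1, h2, h3⟩ := h
  have hev : ∀ᶠ ε : ℝ in 𝓝[>] 0, Λ (3 / 2 + τ * I + ε) = L (3 / 2 + τ * I + ε) := by
    have h4 := (path_tendsto' (3 / 2 + τ * I : ℂ)).eventually h2
    filter_upwards [h4, self_mem_nhdsWithin] with ε h5 h6
    have hε : (0 : ℝ) < ε := h6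
    exact h5 (by simp [hε])
  have hne : ∀ᶠ ε : ℝ in 𝓝[>] 0, Λ (3 / 2 + τ * I + ε) ≠ 0 := by
    filter_upwards [hev, h0] with ε h5 h6
    rw [h5]
    exact h6
  obtain ⟨m', hm1, hm2⟩ := order_of_size h1 hne
  have e : m' = m := by
    rw [h3] at hm1
    exact_mod_cast hm1.symm
  subst e
  refine hm2.congr' ?_
  filter_upwards [hev] with ε h5
  rw [h5]

/-- the sizes of the number fields -/
theorem size_nf {a b : ℤ} (hΔ : 4 * a ^ 3 + 27 * b ^ 2 ≠ 0)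
    (F : IntermediateField ℚ (AlgebraicClosure ℚ)) [NumberField F]
    (V : HeightOneSpectrum (𝓞 F) → WeierstrassCurve (𝓞 F)) (hV : MinimalModels (curve F a b) V)
    (τ : ℝ) (σ : HeightOneSpectrum (𝓞 ℚ) → GK ℚ) (hσ : ∀ v, IsFrob v (σ v)) :
    (∀ᶠ ε : ℝ in 𝓝[>] 0, LSeries V (3 / 2 + τ * I + ε) ≠ 0) ∧
    Tendsto (fun ε : ℝ => (ED ℚ ε fun v => rE a b v * (fixn ℚ F (σ v) * cz τ v)) -
      fieldSize V τ ε) (𝓝[>] 0) (𝓝 0) :=
  size_fz (K := ℚ) (F := F) hΔ V hV τ σ hσ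

theorem lim_sub {l : Filter ℝ} (hl : l ≤ 𝓝[>] 0) {f g : ℝ → ℝ} {c : ℝ}
    (h : Tendsto (fun ε => f ε - g ε) (𝓝[>] 0) (𝓝 0)) (hf : Tendsto f l (𝓝 c)) :
    Tendsto g l (𝓝 c) := by
  have h1 := hf.sub (h.mono_left hl)
  rw [sub_zero] at h1
  exact h1.congr fun ε => by ring

theorem lim_sub' {l : Filter ℝ} (hl : l ≤ 𝓝[>] 0) {f g : ℝ → ℝ} {c : ℝ}
    (h : Tendsto (fun ε => f ε - g ε) (𝓝[>] 0) (𝓝 0)) (hg : Tendsto g l (𝓝 c)) :
    Tendsto f l (𝓝 c) := by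
  have h1 := hg.add (h.mono_left hl)
  rw [add_zero] at h1
  exact h1.congr fun ε => by ring

/-- orders of twists -/
theorem limI_of_order {a b : ℤ} (hΔ : 4 * a ^ 3 + 27 * b ^ 2 ≠ 0) {n : ℕ}
    {ρ : Representation ℂ (GK ℚ) (Fin n → ℂ)} (hρ : IsArtin ρ) {τ : ℝ} {m : ℤ}
    (h : HasOrder a b ρ τ m) (σ : HeightOneSpectrum (𝓞 ℚ) → GK ℚ) (hσ : ∀ v, IsFrob v (σ v)) :
    LimI (rE a b) σ (⟨n, ρ⟩ : MRep (GK ℚ)) τ (-m) := by
  obtain ⟨B, hB, hc⟩ := h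
  have h1 := size_sys hΔ ρ hρ hB σ hσ
  have h2 := lim_sub' le_rfl h1.2 (cont_lim h1.1 hc)
  unfold LimI
  push_cast
  exact h2

/-- the spectrum -/
theorem spectrum {a b : ℤ} (hΔ : 4 * a ^ 3 + 27 * b ^ 2 ≠ 0) (hmod : IsModular a b)
    {𝒰 : Ultrafilter ℝ} (h𝒰 : (𝒰 : Filter ℝ) ≤ 𝓝[>] 0) : ∃ δ y, IsSpectrum a b 𝒰 δ y := by
  classical
  obtain ⟨σ, hσ⟩ : ∃ σ : HeightOneSpectrum (𝓞 ℚ) → GK ℚ, ∀ v, IsFrob v (σ v) := by
    choose σ hσ using exists_isFrob (F := ℚ)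
    exact ⟨σ, hσ⟩
  have hR : MeanOne (F := ℚ) fun _ : Unit => rE a b :=
    meanOne (fun _ : Unit => a) (fun _ => b) (fun _ => hmod)
      (fun x y h => absurd (Subsingleton.elim x y) h) fun _ => hΔ
  obtain ⟨zF, zA, h1, h2, h3, h4, h5⟩ := spec hR hσ h𝒰
  refine ⟨zF, fun n ρ t => zA ⟨n, ρ⟩ t, ?_, ?_, ?_, ?_, ?_, h5⟩
  · intro F _ V τ hV
    exact lim_sub h𝒰 (size_nf hΔ F V hV τ σ hσ).2 (h1 F τ).2
  · intro n ρ τ B hρ hB
    exact lim_sub h𝒰 (size_sys hΔ ρ hρ hB σ hσ).2 (h2 ⟨n, ρ⟩ hρ τ).2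
  · intro κ _ n ρ τ hA hirr hne
    set g : κ → MRep (GK ℚ) × ℝ := fun k => (⟨n k, ρ k⟩, τ k) with hg
    have hinj : Function.Injective g := by
      intro k k' hkk
      by_contra h
      have e1 : (⟨n k, ρ k⟩ : MRep (GK ℚ)) = ⟨n k', ρ k'⟩ := (Prod.mk.inj hkk).1
      have e2 : τ k = τ k' := (Prod.mk.inj hkk).2
      have h2 : Sim (⟨n k, ρ k⟩ : MRep (GK ℚ)) ⟨n k', ρ k'⟩ := by
        rw [e1]
        exact Pool.Agent.W353.AT.Sim.refl _
      exact (not_nonempty_iff.2 (hne k k' h e2)) h2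
    have h6 := h3 (Finset.univ.image g) ⟨fun p hp => by
        obtain ⟨k, -, rfl⟩ := Finset.mem_image.1 hp
        exact ⟨hA k, hirr k⟩, fun p hp q hq hpq ht => by
        obtain ⟨k, -, rfl⟩ := Finset.mem_image.1 hp
        obtain ⟨k', -, rfl⟩ := Finset.mem_image.1 hq
        have h7 : k ≠ k' := fun h => hpq (by rw [h])
        exact not_nonempty_iff.2 (hne k k' h7 ht)⟩
    rwa [Finset.sum_image fun a _ b _ hab => hinj hab] at h6
  · intro n ρ hρ hirr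
    have hsub : ∀ τ : ℝ, ∀ _ _ : Unit, Tendsto (fun ε : ℝ =>
        (EP (nm ℚ) ε fun v => rE a b v * RR ρ τ σ v) / lam ε -
        (EP (nm ℚ) ε fun v => rE a b v * RR ρ τ σ v) / lam ε) (𝓝[>] 0) (𝓝 0) := by
      intro τ _ _
      have : (fun ε : ℝ => (EP (nm ℚ) ε fun v => rE a b v * RR ρ τ σ v) / lam ε -
          (EP (nm ℚ) ε fun v => rE a b v * RR ρ τ σ v) / lam ε) = fun _ => 0 := by
        funext ε
        exact sub_self _
      rw [this]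
      exact tendsto_const_nhds
    refine ⟨fun τ hcase => ?_, fun hn U hUn hU hρU => ?_⟩
    · obtain ⟨U, hUn, hU, hρU⟩ := Pool.Agent.W353.AT.exists_common (κ := Unit)
        (n := fun _ => n) (fun _ => ρ) fun _ => hρ
      have hfin : Finite (GK ℚ ⧸ U) := Subgroup.quotient_finite_of_isOpen U hU
      refine le_of_forall_pos_le_add fun η hη => ?_
      have h6 := (h2 ⟨n, ρ⟩ hρ τ).2.pow 2
      refine le_of_tendsto h6 (h𝒰 ?_)
      rcases hcase with ht | hr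
      · exact sq_le_half U (fun _ : Unit => ρ) hρU hR hU (fun _ => τ) σ hσ
          (x := fun _ _ ε => (EP (nm ℚ) ε fun v => rE a b v * RR ρ τ σ v) / lam ε) (hsub τ)
          (i := ()) (k := ()) hirr ht hη
      · exact sq_le_half' U (fun _ : Unit => ρ) hρU hR hU (fun _ => τ) σ hσ
          (x := fun _ _ ε => (EP (nm ℚ) ε fun v => rE a b v * RR ρ τ σ v) / lam ε) (hsub τ)
          (i := ()) (k := ()) hirr hr hη
    · have key : ∀ U : Subgroup (GK ℚ), U.Normal → IsOpen (U : Set (GK ℚ)) →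
          (∀ u ∈ U, ρ u = 1) → |zA ⟨n, ρ⟩ 0| ≤ 1 - ((n : ℝ) - 2) ^ 2 / (2 * U.index) := by
        intro U hUn hU hρU
        have hfin : Finite (GK ℚ ⧸ U) := Subgroup.quotient_finite_of_isOpen U hU
        refine le_of_forall_pos_le_add fun η hη => ?_
        have h6 := (h2 ⟨n, ρ⟩ hρ 0).2.abs
        refine le_of_tendsto h6 (h𝒰 ?_)
        exact abs_le_strict U (fun _ : Unit => ρ) (fun _ => hρU) hR hU (fun _ => 0) σ hσ
          (x := fun _ _ ε => (EP (nm ℚ) ε fun v => rE a b v * RR ρ 0 σ v) / lam ε) (hsub 0)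
          (i := ()) (k := ()) hirr rfl hn hη
      exact key U hUn hU hρU
  · intro F _
    obtain ⟨S, a1, a2, a3, a4⟩ := h4 F
    refine ⟨S, inferInstance, fun k => k.1.1, fun k => k.1.2, ⟨fun k => a1 k.1 k.2,
      fun k k' hkk => ?_, fun n' χ' hA' hi' hne' => ?_⟩, fun τ => ?_⟩
    · exact not_nonempty_iff.1 (a2 k.1 k.2 k'.1 k'.2 fun h => hkk (Subtype.ext h))
    · exact a3 ⟨n', χ'⟩ ⟨hA', hi'⟩ fun p hp hs => (not_nonempty_iff.2 (hne' ⟨p, hp⟩)) hs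
    · rw [a4 τ, ← Finset.sum_coe_sort S (fun p => zA p τ * Pool.Agent.W353.AT.fixedDim p.2 F)]
      rfl

/-- the exceptional representation -/
theorem fields {a b : ℤ} (hΔ : 4 * a ^ 3 + 27 * b ^ 2 ≠ 0) (hmod : IsModular a b) (τ : ℝ) :
    (∀ (F : IntermediateField ℚ (AlgebraicClosure ℚ)) [NumberField F], TwistsContinue a b F τ →
      ∀ V : HeightOneSpectrum (𝓞 F) → WeierstrassCurve (𝓞 F), MinimalModels (curve F a b) V →
        Tendsto (fieldSize V τ) (𝓝[>] 0) (𝓝 0)) ∨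
    (τ = 0 ∧ ∃ (n₀ : ℕ) (ρ₀ : Representation ℂ Gal(AlgebraicClosure ℚ/ℚ) (Fin n₀ → ℂ)) (m₀ : ℤ)
      (M₀ : IntermediateField ℚ (AlgebraicClosure ℚ)), IsArtin ρ₀ ∧ ρ₀.IsIrreducible ∧ n₀ ≤ 2 ∧
      (∀ g, (ρ₀.character g).im = 0) ∧ (m₀ = 1 ∨ m₀ = -1) ∧ HasOrder a b ρ₀ 0 m₀ ∧
      FiniteDimensional ℚ M₀ ∧ IsGalois ℚ M₀ ∧
      ∀ (F : IntermediateField ℚ (AlgebraicClosure ℚ)) [NumberField F],
        fixedDim ρ₀ F = fixedDim ρ₀ (F ⊓ M₀) ∧
        (TwistsContinue a b F 0 →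
          ∀ V : HeightOneSpectrum (𝓞 F) → WeierstrassCurve (𝓞 F), MinimalModels (curve F a b) V →
            Tendsto (fieldSize V 0) (𝓝[>] 0) (𝓝 (-((m₀ : ℝ) * fixedDim ρ₀ F))))) := by
  classical
  obtain ⟨σ, hσ⟩ : ∃ σ : HeightOneSpectrum (𝓞 ℚ) → GK ℚ, ∀ v, IsFrob v (σ v) := by
    choose σ hσ using exists_isFrob (F := ℚ)
    exact ⟨σ, hσ⟩
  have hR : MeanOne (F := ℚ) fun _ : Unit => rE a b :=
    meanOne (fun _ : Unit => a) (fun _ => b) (fun _ => hmod)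
      (fun x y h => absurd (Subsingleton.elim x y) h) fun _ => hΔ
  by_cases hex : ∃ (n : ℕ) (ρ : Representation ℂ (GK ℚ) (Fin n → ℂ)) (m : ℤ), IsArtin ρ ∧
      ρ.IsIrreducible ∧ HasOrder a b ρ τ m ∧ m ≠ 0
  · right
    obtain ⟨n₀, ρ₀, m₀, hA, hirr, ho, hm0⟩ := hex
    have hI : Irr (⟨n₀, ρ₀⟩ : MRep (GK ℚ)) := ⟨hA, hirr⟩
    have hl := limI_of_order hΔ hA ho σ hσ
    have hm0' : -m₀ ≠ 0 := neg_ne_zero.2 hm0
    obtain ⟨ht, hreal, hn, hsq⟩ := exc_one hR hσ hI hl hm0'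
    subst ht
    obtain ⟨M₀, hM1, hM2, hM3⟩ := exists_M₀ (x := (⟨n₀, ρ₀⟩ : MRep (GK ℚ))) hA
    refine ⟨rfl, n₀, ρ₀, m₀, M₀, hA, hirr, hn, hreal, ?_, ho, hM1, hM2, fun F _ =>
      ⟨hM3 F, fun hF V hV => ?_⟩⟩
    · rw [neg_sq] at hsq
      have h5 : (m₀ - 1) * (m₀ + 1) = 0 := by
        have : (m₀ - 1) * (m₀ + 1) = m₀ ^ 2 - 1 := by ring
        rw [this, hsq, sub_self]
      rcases mul_eq_zero.1 h5 with h6 | h6
      · exact Or.inl (by omega)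
      · exact Or.inr (by omega)
    · have h1 := field_exc hR hσ hI hl hm0' F (fun x hx hd => by
        obtain ⟨m, hm⟩ := hF x.1 x.2 hx.1 hx.2 hd
        exact ⟨-m, limI_of_order hΔ hx.1 hm σ hσ⟩)
      have h2 := lim_sub le_rfl (size_nf hΔ F V hV 0 σ hσ).2 h1
      have e : ((-m₀ : ℤ) : ℝ) * Pool.Agent.W353.AT.fixedDim ρ₀ F =
          -((m₀ : ℝ) * fixedDim ρ₀ F) := by
        push_cast
        change -(m₀ : ℝ) * (fixedDim ρ₀ F : ℝ) = _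
        ring
      rw [← e]
      exact h2
  · left
    intro F _ hF V hV
    refine lim_sub le_rfl (size_nf hΔ F V hV τ σ hσ).2 ?_
    refine field_zero hR hσ F fun x hx hd => ?_
    obtain ⟨m, hm⟩ := hF x.1 x.2 hx.1 hx.2 hd
    have hm0 : m = 0 := by
      by_contra h
      exact hex ⟨x.1, x.2, m, hx.1, hx.2, hm, h⟩
    subst hm0
    have h3 := limI_of_order hΔ hx.1 hm σ hσ
    rwa [neg_zero] at h3

end Aux

/-- **A modular elliptic curve over all number fields, on the line `Re s = 3/2`.**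

Let `E : y² = x³ + a x + b` be a modular elliptic curve over `ℚ`.

1. For every number field `F ⊂ ℚ̄` and every real `τ`, `L(E/F, s) ≠ 0` at `s = 3/2 + iτ + ε` for small
`ε > 0`, and if `L(E/F, s)` has a meromorphic continuation to a neighbourhood of `3/2 + iτ`, of order `m`
there, then `log |L(E/F, 3/2 + iτ + ε)| / log(1/ε)` tends to `-m` as `ε → 0+`.

2. (Nothing is assumed about continuation.)  Along every ultrafilter `𝒰` that converges to `0+`, the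
quotients `log |L(E/F, 3/2 + iτ + ε)| / log(1/ε)` and `log |L(E ⊗ ρ, 3/2 + iτ + ε)| / log(1/ε)` converge,
for all number fields `F`, all Artin representations `ρ` of `ℚ` and all `τ`, and the limits have the
properties of `IsSpectrum`.

3. Let `τ` be real, and let `𝓕` be the class of the number fields `F`, of any degree, such that the
functions `L(E ⊗ ρ, s)`, for the irreducible Artin representations `ρ` with `ρ^{Gal(ℚ̄/F)} ≠ 0` (the factors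
of `L(E/F, s)`), have meromorphic continuations to neighbourhoods of `3/2 + iτ`.  Then either
`log |L(E/F, 3/2 + iτ + ε)| / log(1/ε) → 0` for all `F ∈ 𝓕`: there is no zero or pole at `3/2 + iτ`.  Or
`τ = 0`, and there are one irreducible Artin representation `ρ₀`, of dimension at most two and with real
character, a sign `m₀ = ±1` and a finite Galois extension `M₀` of `ℚ` such that, for all `F ∈ 𝓕`, the
quotient tends to `-m₀ dim ρ₀^{Gal(ℚ̄/F)}` (that is, `L(E/F, s)` has the order `m₀ dim ρ₀^{Gal(ℚ̄/F)}` at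
`3/2`), and this number depends on `F ∩ M₀` only.

4. The quadratic twists of `X_0(11)` and `X_0(14)` are modular. -/
theorem result :
    (∀ a b : ℤ, 4 * a ^ 3 + 27 * b ^ 2 ≠ 0 → IsModular a b →
      (∀ (F : IntermediateField ℚ (AlgebraicClosure ℚ)) [NumberField F]
        (V : HeightOneSpectrum (𝓞 F) → WeierstrassCurve (𝓞 F)) (τ : ℝ),
        MinimalModels (curve F a b) V →
        (∀ᶠ ε : ℝ in 𝓝[>] 0, LSeries V (3 / 2 + τ * I + ε) ≠ 0) ∧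
        ∀ m : ℤ, Continues (LSeries V) τ m → Tendsto (fieldSize V τ) (𝓝[>] 0) (𝓝 (-(m : ℝ)))) ∧
      (∀ 𝒰 : Ultrafilter ℝ, (𝒰 : Filter ℝ) ≤ 𝓝[>] 0 → ∃ δ y, IsSpectrum a b 𝒰 δ y) ∧
      ∀ τ : ℝ,
        (∀ (F : IntermediateField ℚ (AlgebraicClosure ℚ)) [NumberField F],
          TwistsContinue a b F τ →
          ∀ V : HeightOneSpectrum (𝓞 F) → WeierstrassCurve (𝓞 F), MinimalModels (curve F a b) V →
            Tendsto (fieldSize V τ) (𝓝[>] 0) (𝓝 0)) ∨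
        (τ = 0 ∧ ∃ (n₀ : ℕ) (ρ₀ : Representation ℂ Gal(AlgebraicClosure ℚ/ℚ) (Fin n₀ → ℂ))
          (m₀ : ℤ) (M₀ : IntermediateField ℚ (AlgebraicClosure ℚ)), IsArtin ρ₀ ∧
          ρ₀.IsIrreducible ∧ n₀ ≤ 2 ∧ (∀ g, (ρ₀.character g).im = 0) ∧ (m₀ = 1 ∨ m₀ = -1) ∧
          HasOrder a b ρ₀ 0 m₀ ∧ FiniteDimensional ℚ M₀ ∧ IsGalois ℚ M₀ ∧
          ∀ (F : IntermediateField ℚ (AlgebraicClosure ℚ)) [NumberField F],
            fixedDim ρ₀ F = fixedDim ρ₀ (F ⊓ M₀) ∧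
            (TwistsContinue a b F 0 →
              ∀ V : HeightOneSpectrum (𝓞 F) → WeierstrassCurve (𝓞 F),
                MinimalModels (curve F a b) V →
                Tendsto (fieldSize V 0) (𝓝[>] 0) (𝓝 (-((m₀ : ℝ) * fixedDim ρ₀ F)))))) ∧
    ∀ g : ℤ, g ≠ 0 →
      (4 * (-13392 * g ^ 2) ^ 3 + 27 * (-1080432 * g ^ 3) ^ 2 ≠ 0 ∧
        IsModular (-13392 * g ^ 2) (-1080432 * g ^ 3)) ∧
      (4 * (5805 * g ^ 2) ^ 3 + 27 * (-285714 * g ^ 3) ^ 2 ≠ 0 ∧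
        IsModular (5805 * g ^ 2) (-285714 * g ^ 3)) := by
  refine ⟨fun a b hΔ hmod => ⟨fun F _ V τ hV => ?_, fun 𝒰 h𝒰 => spectrum hΔ hmod h𝒰,
    fun τ => fields hΔ hmod τ⟩, fun g hg =>
    ⟨⟨?_, Pool.Agent.X288.L2.modular11 hg⟩, ⟨?_, Pool.Agent.X288.L2.modular14 hg⟩⟩⟩
  · obtain ⟨σ, hσ⟩ : ∃ σ : HeightOneSpectrum (𝓞 ℚ) → Pool.Agent.W401.Cheb.GK ℚ,
        ∀ v, Pool.Agent.W401.Cheb.IsFrob v (σ v) := by
      choose σ hσ using Pool.Agent.W540.BE.exists_isFrob (F := ℚ)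
      exact ⟨σ, hσ⟩
    have h1 := size_nf hΔ F V hV τ σ hσ
    exact ⟨h1.1, fun m hm => cont_lim h1.1 hm⟩
  · have h1 : 4 * (-13392 * g ^ 2) ^ 3 + 27 * (-1080432 * g ^ 3) ^ 2 =
        (4 * (-13392) ^ 3 + 27 * (-1080432) ^ 2) * g ^ 6 := by ring
    rw [h1]
    exact mul_ne_zero (by norm_num) (pow_ne_zero 6 hg)
  · have h1 : 4 * (5805 * g ^ 2) ^ 3 + 27 * (-285714 * g ^ 3) ^ 2 =
        (4 * 5805 ^ 3 + 27 * (-285714) ^ 2) * g ^ 6 := by ring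
    rw [h1]
    exact mul_ne_zero (by norm_num) (pow_ne_zero 6 hg)

end Pool.Agent.Results.MP_bf9450_nt.AllNumberFields
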