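import Pool.Agent.T2H36.AT.Conj
import Pool.Agent.X288.L2.Inst

/-!
# Artin twists of modular elliptic curves over `ℚ` on the line `Re s = 3/2`

`E : y² = x³ + a x + b` is an elliptic curve over `ℚ` and `ρ` a representation of `Gal(ℚ̄/ℚ)` on `ℂⁿ`
with open kernel.  `L(E ⊗ ρ, s)` is the Euler product over the primes whose factor is, for all but
finitely many primes `v`, `det(1 - a_v q_v^{-s} ρ(Frob_v⁻¹) + q_v^{1 - 2s} ρ(Frob_v⁻¹)²)⁻¹`.  For a number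
field `K`, `L(E/K, s)` is the product of the `L(E ⊗ ρ, s)^{m(ρ)}`, `ρ` irreducible and `m(ρ)` the dimension
of the invariants of `Gal(ℚ̄/K)`; so Hasse-Weil for `E` over all number fields is about these functions.

The line `Re s = 3/2` is the boundary of the half plane of absolute convergence.
-/

set_option autoImplicit false

namespace Pool.Agent.Results.MP_bf9450_nt.ArtinTwists

open Complex Filter Topology NumberField IsDedekindDomain Polynomial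
open Pool.Agent.Y722.EP (IsModular NotIsogenous trace)

/-- `σ` is a Frobenius element at the prime `v` of `ℚ`: there is a maximal ideal `Q` above `v` of the
ring of all algebraic integers with `σ x ≡ x ^ q_v` modulo `Q` for all `x`. -/
def IsFrobenius (v : HeightOneSpectrum (𝓞 ℚ)) (σ : Gal(AlgebraicClosure ℚ/ℚ)) : Prop :=
  ∃ Q : Ideal (𝓞 (AlgebraicClosure ℚ)), Q.IsMaximal ∧
    Q.comap (algebraMap (𝓞 ℚ) (𝓞 (AlgebraicClosure ℚ))) = v.asIdeal ∧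
    ∀ x : 𝓞 (AlgebraicClosure ℚ), σ • x - x ^ Ideal.absNorm v.asIdeal ∈ Q

/-- `ρ` is an Artin representation: it is trivial on an open subgroup of `Gal(ℚ̄/ℚ)`. -/
def IsArtin {n : ℕ} (ρ : Representation ℂ Gal(AlgebraicClosure ℚ/ℚ) (Fin n → ℂ)) : Prop :=
  ∃ U : Subgroup Gal(AlgebraicClosure ℚ/ℚ), IsOpen (U : Set Gal(AlgebraicClosure ℚ/ℚ)) ∧
    ∀ u ∈ U, ρ u = 1

/-- The polynomials `B v` are the Euler factors of `L(E ⊗ ρ, s)`, `E : y² = x³ + a x + b`: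
`B_v(z) = det(1 - a_v z ρ(Frob_v⁻¹) + q_v z² ρ(Frob_v⁻¹)²)` for all but finitely many primes `v`, where
`a_v = q_v + 1 - #E(𝔽_v)`; at the other primes `B v` is an arbitrary polynomial, and no factor
`1 / B_v(q_v^{-s})` has a pole at `s = 3/2 + iτ`. -/
def IsSystem (a b : ℤ) {n : ℕ} (ρ : Representation ℂ Gal(AlgebraicClosure ℚ/ℚ) (Fin n → ℂ))
    (τ : ℝ) (B : HeightOneSpectrum (𝓞 ℚ) → ℂ[X]) : Prop :=
  (∀ᶠ v in cofinite, ∀ σ : Gal(AlgebraicClosure ℚ/ℚ), IsFrobenius v σ → ∀ z : ℂ,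
    (B v).eval z = LinearMap.det (1 - ((trace v a b : ℂ) * z) • ρ σ⁻¹ +
      (((Ideal.absNorm v.asIdeal : ℕ) : ℂ) * z ^ 2) • (ρ σ⁻¹) ^ 2)) ∧
  ∀ v, (B v).eval (((Ideal.absNorm v.asIdeal : ℕ) : ℂ) ^ (-(3 / 2 + τ * I : ℂ))) ≠ 0

/-- The Euler product `∏_v B_v(q_v^{-s})⁻¹`. -/
noncomputable def eulerProduct (B : HeightOneSpectrum (𝓞 ℚ) → ℂ[X]) (s : ℂ) : ℂ :=
  ∏' v : HeightOneSpectrum (𝓞 ℚ), ((B v).eval (((Ideal.absNorm v.asIdeal : ℕ) : ℂ) ^ (-s)))⁻¹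

/-- `log |L(E ⊗ ρ, 3/2 + iτ + ε)| / log (1/ε)`, which tends to the order of the pole at `3/2 + iτ` if
there is a meromorphic continuation to a neighbourhood. -/
noncomputable def size (B : HeightOneSpectrum (𝓞 ℚ) → ℂ[X]) (τ ε : ℝ) : ℝ :=
  Real.log ‖eulerProduct B (3 / 2 + τ * I + ε)‖ / Real.log (1 / ε)

/-- `L(E ⊗ ρ, s)` has a meromorphic continuation to a neighbourhood of `3/2 + iτ`, of order `m` at this
point (`m < 0` for a pole, `m > 0` for a zero). -/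
def HasOrder (a b : ℤ) {n : ℕ} (ρ : Representation ℂ Gal(AlgebraicClosure ℚ/ℚ) (Fin n → ℂ))
    (τ : ℝ) (m : ℤ) : Prop :=
  ∃ B : HeightOneSpectrum (𝓞 ℚ) → ℂ[X], IsSystem a b ρ τ B ∧
    ∃ Λ : ℂ → ℂ, MeromorphicAt Λ (3 / 2 + τ * I) ∧
      (∀ᶠ s in 𝓝 (3 / 2 + τ * I : ℂ), 3 / 2 < s.re → Λ s = eulerProduct B s) ∧
      meromorphicOrderAt Λ (3 / 2 + τ * I) = m

section Aux

open Pool.Agent.W401.Cheb Pool.Agent.W540.BE Pool.Agent.W353.L1 Pool.Agent.R433.AT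
open Pool.Agent.Y722.EP (rE)
open Pool.Agent.H341R2 (lam path_tendsto')

/-- a common open normal subgroup -/
theorem exists_common {κ : Type*} [Finite κ] {n : κ → ℕ}
    (ρ : ∀ k, Representation ℂ (GK ℚ) (Fin (n k) → ℂ)) (h : ∀ k, IsArtin (ρ k)) :
    ∃ U : Subgroup (GK ℚ), U.Normal ∧ IsOpen (U : Set (GK ℚ)) ∧ ∀ k, ∀ u ∈ U, ρ k u = 1 := by
  set U : κ → Subgroup (GK ℚ) := fun k => (MonoidHom.toHomUnits (ρ k)).ker with hU
  have hmem : ∀ k u, u ∈ U k → ρ k u = 1 := by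
    intro k u hu
    have h1 : MonoidHom.toHomUnits (ρ k) u = 1 := (MonoidHom.mem_ker).1 hu
    exact congrArg Units.val h1
  have hopen : ∀ k, IsOpen (U k : Set (GK ℚ)) := by
    intro k
    obtain ⟨W, hW, hW1⟩ := h k
    refine Subgroup.isOpen_mono (H₁ := W) ?_ hW
    intro u hu
    exact (MonoidHom.mem_ker).2 (Units.ext (hW1 u hu))
  refine ⟨⨅ k, U k, ?_, ?_, fun k u hu => hmem k u ((Subgroup.mem_iInf.1 hu) k)⟩
  · refine ⟨fun u hu g => ?_⟩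
    rw [Subgroup.mem_iInf] at hu ⊢
    exact fun k => (inferInstance : (U k).Normal).conj_mem u (hu k) g
  · rw [Subgroup.coe_iInf]
    exact isOpen_iInter_of_finite hopen

/-- the sizes -/
theorem size_sys (U : Subgroup (GK ℚ)) [U.Normal] [Finite (GK ℚ ⧸ U)] {a b : ℤ}
    (hΔ : 4 * a ^ 3 + 27 * b ^ 2 ≠ 0) {n : ℕ} (ρ : Representation ℂ (GK ℚ) (Fin n → ℂ))
    (hρ : ∀ u ∈ U, ρ u = 1) {τ : ℝ} {B : HeightOneSpectrum (𝓞 ℚ) → ℂ[X]}
    (hB : IsSystem a b ρ τ B) (σ : HeightOneSpectrum (𝓞 ℚ) → GK ℚ) (hσ : ∀ v, IsFrob v (σ v)) :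
    (∀ᶠ ε : ℝ in 𝓝[>] 0, eulerProduct B (3 / 2 + τ * I + ε) ≠ 0) ∧
    Tendsto (fun ε : ℝ => (EP (nm ℚ) ε fun v => rE a b v * RR ρ τ σ v) / lam ε - size B τ ε)
      (𝓝[>] 0) (𝓝 0) :=
  size_ab U hΔ ρ hρ τ B hB.1 hB.2 σ hσ (eulerProduct B) fun _ => rfl

/-- dimension at least two -/
theorem strict_sys (U : Subgroup (GK ℚ)) (hUn : U.Normal) (hU : IsOpen (U : Set (GK ℚ))) {a b : ℤ}
    (hΔ : 4 * a ^ 3 + 27 * b ^ 2 ≠ 0) (hR : MeanOne (F := ℚ) fun _ : Unit => rE a b) {n : ℕ}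
    (ρ : Representation ℂ (GK ℚ) (Fin n → ℂ)) (hirr : ρ.IsIrreducible)
    (hρ : ∀ u ∈ U, ρ u = 1) {τ : ℝ} {B : HeightOneSpectrum (𝓞 ℚ) → ℂ[X]}
    (hB : IsSystem a b ρ τ B) (σ : HeightOneSpectrum (𝓞 ℚ) → GK ℚ) (hσ : ∀ v, IsFrob v (σ v))
    (ht : τ = 0) (hn : 2 ≤ n) {η : ℝ} (hη : 0 < η) : ∀ᶠ ε : ℝ in 𝓝[>] 0,
      |size B τ ε| ≤ 1 - ((n : ℝ) - 2) ^ 2 / (2 * U.index) + η := by
  have hfin : Finite (GK ℚ ⧸ U) := Subgroup.quotient_finite_of_isOpen U hU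
  have hs := size_sys U hΔ ρ hρ hB σ hσ
  exact Pool.Agent.T2H36.AT.abs_le_strict U (fun _ : Unit => ρ) (fun _ => hρ) hR hU (fun _ => τ) σ
    hσ (x := fun _ _ => size B τ) (fun _ _ => hs.2) (i := ()) (k := ()) hirr ht hn hη

/-- the limit of the sizes -/
theorem size_lim {B : HeightOneSpectrum (𝓞 ℚ) → ℂ[X]} {τ : ℝ} {m : ℤ} {Λ : ℂ → ℂ}
    (h0 : ∀ᶠ ε : ℝ in 𝓝[>] 0, eulerProduct B (3 / 2 + τ * I + ε) ≠ 0)
    (h1 : MeromorphicAt Λ (3 / 2 + τ * I))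
    (h2 : ∀ᶠ s in 𝓝 (3 / 2 + τ * I : ℂ), 3 / 2 < s.re → Λ s = eulerProduct B s)
    (h3 : meromorphicOrderAt Λ (3 / 2 + τ * I) = m) :
    Tendsto (size B τ) (𝓝[>] 0) (𝓝 (-(m : ℝ))) := by
  have hev : ∀ᶠ ε : ℝ in 𝓝[>] 0, Λ (3 / 2 + τ * I + ε) = eulerProduct B (3 / 2 + τ * I + ε) := by
    have h4 := (path_tendsto' (3 / 2 + τ * I : ℂ)).eventually h2
    filter_upwards [h4, self_mem_nhdsWithin] with ε h5 h6
    have hε : (0 : ℝ) < ε := h6
    exact h5 (by simp [hε])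
  have hne : ∀ᶠ ε : ℝ in 𝓝[>] 0, Λ (3 / 2 + τ * I + ε) ≠ 0 := by
    filter_upwards [hev, h0] with ε h5 h6
    rw [h5]
    exact h6
  obtain ⟨m', hm1, hm2⟩ := order_of_size h1 hne
  have e : m' = m := by
    rw [h3] at hm1
    exact_mod_cast hm1.symm
  subst e
  refine hm2.congr' ?_
  filter_upwards [hev] with ε h5
  unfold size
  rw [h5]

end Aux

open Pool.Agent.W401.Cheb Pool.Agent.W540.BE Pool.Agent.W353.L1 Pool.Agent.R433.AT
  Pool.Agent.T2H36.AT in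
/-- **Artin twists of modular elliptic curves over `ℚ` on the line `Re s = 3/2`.**

`E_i : y² = x³ + a_i x + b_i`, `i ∈ ι` finite, are modular elliptic curves over `ℚ`, pairwise not
isogenous.

1. (Nothing is assumed about continuation.)  Let `ρ_k`, `k ∈ κ` finite, be irreducible Artin
representations and `τ_k` real numbers, `ρ_k` and `ρ_l` not equivalent if `τ_k = τ_l` and `k ≠ l`.  Then
`L(E_i ⊗ ρ_k, s) ≠ 0` at `s = 3/2 + iτ_k + ε` for small `ε > 0`, and for all `C` and `η > 0` and all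
sufficiently small `ε > 0` the numbers `x_{ik}(ε) = log |L(E_i ⊗ ρ_k, 3/2 + iτ_k + ε)| / log(1/ε)` satisfy
`∑_k (∑_i c_i x_{ik}(ε))² ≤ ∑_i c_i² + η` whenever `0 ≤ c_i ≤ C`.  In particular `∑_k x_{ik}(ε)² ≤ 1 + η`.

2. (Nothing is assumed about continuation.)  Let `ρ` be an irreducible Artin representation of
dimension `n` and `x(ε) = log |L(E_i ⊗ ρ, 3/2 + iτ + ε)| / log(1/ε)`.  If `τ ≠ 0` or the character of `ρ` is
not real, then `x(ε)² ≤ 1/2 + η` for small `ε > 0`.  If `τ = 0`, `n ≥ 2` and `ρ` is trivial on the open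
normal subgroup `U`, then `|x(ε)| ≤ 1 - (n - 2)² / (2 [G : U]) + η` for small `ε > 0`.

3. Let `ρ` be an irreducible Artin representation of dimension `n`, and `L(E_i ⊗ ρ, s)` meromorphic in a
neighbourhood of `3/2 + iτ`, of order `m ≠ 0` there.  Then `τ = 0`, the character of `ρ` is real, `n ≤ 2`,
`m = ±1`, and `a_p/√p + m tr ρ(Frob_p)` is zero in the mean square.

4. For given `i` this happens for at most one `ρ` (up to equivalence).

5. For given `ρ` the orders `m`, `m'` of `L(E_i ⊗ ρ, s)` and `L(E_j ⊗ ρ, s)`, `i ≠ j`, at `3/2 + iτ` satisfy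
`m m' ≤ 0`; so it happens for at most two `i`.

6. The quadratic twists of `X_0(11)` and `X_0(14)` are modular elliptic curves.

Hence, if `n ≥ 3` or `τ ≠ 0` or the character of `ρ` is not real, `L(E ⊗ ρ, s)` has neither a zero nor a
pole at `3/2 + iτ`. -/
theorem result :
    (∀ (ι : Type) [Fintype ι] (a b : ι → ℤ), (∀ i, 4 * a i ^ 3 + 27 * b i ^ 2 ≠ 0) →
      (∀ i, IsModular (a i) (b i)) → (∀ i j, i ≠ j → NotIsogenous (a i) (b i) (a j) (b j)) →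
      (∀ (κ : Type) [Fintype κ] (n : κ → ℕ)
        (ρ : ∀ k, Representation ℂ Gal(AlgebraicClosure ℚ/ℚ) (Fin (n k) → ℂ)) (τ : κ → ℝ)
        (B : ι → κ → HeightOneSpectrum (𝓞 ℚ) → ℂ[X]),
        (∀ k, IsArtin (ρ k)) → (∀ k, (ρ k).IsIrreducible) →
        (∀ k l, k ≠ l → τ k = τ l → IsEmpty ((ρ k).Equiv (ρ l))) →
        (∀ i k, IsSystem (a i) (b i) (ρ k) (τ k) (B i k)) →
        (∀ i k, ∀ᶠ ε : ℝ in 𝓝[>] 0, eulerProduct (B i k) (3 / 2 + τ k * I + ε) ≠ 0) ∧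
        ∀ C η : ℝ, 0 < η → ∀ᶠ ε : ℝ in 𝓝[>] 0, ∀ c : ι → ℝ, (∀ i, 0 ≤ c i ∧ c i ≤ C) →
          ∑ k, (∑ i, c i * size (B i k) (τ k) ε) ^ 2 ≤ (∑ i, c i ^ 2) + η) ∧
      (∀ (i : ι) (n : ℕ) (ρ : Representation ℂ Gal(AlgebraicClosure ℚ/ℚ) (Fin n → ℂ)) (τ : ℝ)
        (B : HeightOneSpectrum (𝓞 ℚ) → ℂ[X]), IsArtin ρ → ρ.IsIrreducible →
        IsSystem (a i) (b i) ρ τ B →
        ((τ ≠ 0 ∨ ∃ g, (ρ.character g).im ≠ 0) → ∀ η : ℝ, 0 < η → ∀ᶠ ε : ℝ in 𝓝[>] 0,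
          size B τ ε ^ 2 ≤ 1 / 2 + η) ∧
        (τ = 0 → 2 ≤ n → ∀ U : Subgroup Gal(AlgebraicClosure ℚ/ℚ), U.Normal →
          IsOpen (U : Set Gal(AlgebraicClosure ℚ/ℚ)) → (∀ u ∈ U, ρ u = 1) →
          ∀ η : ℝ, 0 < η → ∀ᶠ ε : ℝ in 𝓝[>] 0,
            |size B τ ε| ≤ 1 - ((n : ℝ) - 2) ^ 2 / (2 * U.index) + η)) ∧
      (∀ (i : ι) (n : ℕ) (ρ : Representation ℂ Gal(AlgebraicClosure ℚ/ℚ) (Fin n → ℂ)) (τ : ℝ)
        (m : ℤ), IsArtin ρ → ρ.IsIrreducible → HasOrder (a i) (b i) ρ τ m → m ≠ 0 →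
        τ = 0 ∧ (∀ g, (ρ.character g).im = 0) ∧ n ≤ 2 ∧ (m = 1 ∨ m = -1) ∧
        ∀ σ : HeightOneSpectrum (𝓞 ℚ) → Gal(AlgebraicClosure ℚ/ℚ), (∀ v, IsFrobenius v (σ v)) →
          Tendsto (fun ε : ℝ => (∑' v : HeightOneSpectrum (𝓞 ℚ),
            ((trace v (a i) (b i) : ℝ) / Real.sqrt (Ideal.absNorm v.asIdeal) +
              m * (ρ.character (σ v)).re) ^ 2 *
              (Ideal.absNorm v.asIdeal : ℝ) ^ (-(1 + ε))) / Real.log (1 / ε)) (𝓝[>] 0) (𝓝 0)) ∧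
      (∀ (i : ι) (n n' : ℕ) (ρ : Representation ℂ Gal(AlgebraicClosure ℚ/ℚ) (Fin n → ℂ))
        (ρ' : Representation ℂ Gal(AlgebraicClosure ℚ/ℚ) (Fin n' → ℂ)) (τ τ' : ℝ) (m m' : ℤ),
        IsArtin ρ → ρ.IsIrreducible → IsArtin ρ' → ρ'.IsIrreducible →
        HasOrder (a i) (b i) ρ τ m → HasOrder (a i) (b i) ρ' τ' m' → m ≠ 0 → m' ≠ 0 →
        Nonempty (ρ.Equiv ρ')) ∧
      (∀ (i j : ι) (n : ℕ) (ρ : Representation ℂ Gal(AlgebraicClosure ℚ/ℚ) (Fin n → ℂ)) (τ : ℝ)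
        (m m' : ℤ), i ≠ j → IsArtin ρ → ρ.IsIrreducible →
        HasOrder (a i) (b i) ρ τ m → HasOrder (a j) (b j) ρ τ m' → m * m' ≤ 0)) ∧
    ∀ g : ℤ, g ≠ 0 →
      (4 * (-13392 * g ^ 2) ^ 3 + 27 * (-1080432 * g ^ 3) ^ 2 ≠ 0 ∧
        IsModular (-13392 * g ^ 2) (-1080432 * g ^ 3)) ∧
      (4 * (5805 * g ^ 2) ^ 3 + 27 * (-285714 * g ^ 3) ^ 2 ≠ 0 ∧
        IsModular (5805 * g ^ 2) (-285714 * g ^ 3)) := by
  classical
  refine ⟨fun ι _ a b hΔ hmod hne => ?_, fun g hg =>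
    ⟨⟨?_, Pool.Agent.X288.L2.modular11 hg⟩, ⟨?_, Pool.Agent.X288.L2.modular14 hg⟩⟩⟩
  rotate_left
  · have h1 : 4 * (-13392 * g ^ 2) ^ 3 + 27 * (-1080432 * g ^ 3) ^ 2 =
        (4 * (-13392) ^ 3 + 27 * (-1080432) ^ 2) * g ^ 6 := by ring
    rw [h1]
    exact mul_ne_zero (by norm_num) (pow_ne_zero 6 hg)
  · have h1 : 4 * (5805 * g ^ 2) ^ 3 + 27 * (-285714 * g ^ 3) ^ 2 =
        (4 * 5805 ^ 3 + 27 * (-285714) ^ 2) * g ^ 6 := by ring
    rw [h1]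
    exact mul_ne_zero (by norm_num) (pow_ne_zero 6 hg)
  obtain ⟨σ₀, hσ₀⟩ : ∃ σ : HeightOneSpectrum (𝓞 ℚ) → GK ℚ, ∀ v, IsFrob v (σ v) := by
    choose σ hσ using exists_isFrob (F := ℚ)
    exact ⟨σ, hσ⟩
  have hR := meanOne a b hmod hne hΔ
  have hR1 : ∀ i, MeanOne (F := ℚ) fun _ : Unit => Pool.Agent.Y722.EP.rE (a i) (b i) := fun i =>
    meanOne (fun _ : Unit => a i) (fun _ => b i) (fun _ => hmod i)
      (fun x y h => absurd (Subsingleton.elim x y) h) fun _ => hΔ i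
  refine ⟨fun κ _ n ρ τ B hA hirr hd hB => ?_, fun i n ρ τ B hA hirr hB => ⟨?_, ?_⟩,
    fun i n ρ τ m hA hirr hm hm0 => ?_,
    fun i n n' ρ ρ' τ τ' m m' hA hirr hA' hirr' hm hm' hm0 hm0' => ?_,
    fun i j n ρ τ m m' hij hA hirr hm hm' => ?_⟩
  · obtain ⟨U, hUn, hU, hρ⟩ := exists_common ρ hA
    have hfin : Finite (GK ℚ ⧸ U) := Subgroup.quotient_finite_of_isOpen U hU
    refine ⟨fun i k => (size_sys U (hΔ i) (ρ k) (hρ k) (hB i k) σ₀ hσ₀).1, fun C η hη => ?_⟩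
    exact sum_sq_le U ρ hρ hR hU τ σ₀ hσ₀
      (fun i k => (size_sys U (hΔ i) (ρ k) (hρ k) (hB i k) σ₀ hσ₀).2) hirr hd hη
  · intro hcase η hη
    obtain ⟨U, hUn, hU, hρ⟩ := exists_common (κ := Unit) (n := fun _ => n) (fun _ => ρ) fun _ => hA
    have hfin : Finite (GK ℚ ⧸ U) := Subgroup.quotient_finite_of_isOpen U hU
    have hs := size_sys U (hΔ i) ρ (hρ ()) hB σ₀ hσ₀
    rcases hcase with ht | hr
    · exact sq_le_half U (fun _ : Unit => ρ) hρ (hR1 i) hU (fun _ => τ) σ₀ hσ₀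
        (x := fun _ _ => size B τ) (fun _ _ => hs.2) (i := ()) (k := ()) hirr ht hη
    · exact sq_le_half' U (fun _ : Unit => ρ) hρ (hR1 i) hU (fun _ => τ) σ₀ hσ₀
        (x := fun _ _ => size B τ) (fun _ _ => hs.2) (i := ()) (k := ()) hirr hr hη
  · intro ht hn U hUn hU hρ η hη
    exact strict_sys U hUn hU (hΔ i) (hR1 i) ρ hirr hρ hB σ₀ hσ₀ ht hn hη
  · obtain ⟨U, hUn, hU, hρ⟩ := exists_common (κ := Unit) (n := fun _ => n) (fun _ => ρ) fun _ => hA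
    have hfin : Finite (GK ℚ ⧸ U) := Subgroup.quotient_finite_of_isOpen U hU
    obtain ⟨B, hB, Λ, h1, h2, h3⟩ := hm
    have hs := fun σ hσ => size_sys U (hΔ i) ρ (hρ ()) hB σ hσ
    have hl := size_lim (hs σ₀ hσ₀).1 h1 h2 h3
    have ex := exceptional U (fun _ : Unit => ρ) hρ (hR1 i) hU (fun _ => τ) σ₀ hσ₀
      (x := fun _ _ => size B τ) (fun _ _ => (hs σ₀ hσ₀).2) (fun _ _ => m) (fun _ _ => hl)
      (i := ()) (k := ()) hirr hm0
    have hdeg := degree_le U (fun _ : Unit => ρ) hρ (hR1 i) hU (fun _ => τ) σ₀ hσ₀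
      (x := fun _ _ => size B τ) (fun _ _ => (hs σ₀ hσ₀).2) (fun _ _ => m) (fun _ _ => hl)
      (i := ()) (k := ()) hirr hm0
    refine ⟨ex.1, im_of_chF U (fun _ : Unit => ρ) hρ ex.2.1, hdeg, ?_, fun σ hσ => ?_⟩
    · have h4 : m ^ 2 = 1 := ex.2.2.1
      have h5 : (m - 1) * (m + 1) = 0 := by
        have : (m - 1) * (m + 1) = m ^ 2 - 1 := by ring
        rw [this, h4, sub_self]
      rcases mul_eq_zero.1 h5 with h6 | h6
      · exact Or.inl (by omega)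
      · exact Or.inr (by omega)
    · have hz := mean_sq_zero U (fun _ : Unit => ρ) hρ (hR1 i) hU (fun _ => τ) σ hσ
        (x := fun _ _ => size B τ) (fun _ _ => (hs σ hσ).2) (fun _ _ => m) (fun _ _ => hl)
        (i := ()) (k := ()) hirr hm0
      exact mean_sq_trace U (fun _ : Unit => ρ) hρ (fun _ => τ) (k := ()) σ m ex.1 hz
  · obtain ⟨B, hB, Λ, h1, h2, h3⟩ := hm
    obtain ⟨B', hB', Λ', h1', h2', h3'⟩ := hm'
    set nn : Fin 2 → ℕ := ![n, n'] with hnn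
    let ρρ : ∀ k : Fin 2, Representation ℂ (GK ℚ) (Fin (nn k) → ℂ) := fun k =>
      match k with
      | ⟨0, _⟩ => ρ
      | ⟨1, _⟩ => ρ'
    obtain ⟨U, hUn, hU, hρ⟩ := exists_common ρρ (fun k => by
      fin_cases k
      · exact hA
      · exact hA')
    have hfin : Finite (GK ℚ ⧸ U) := Subgroup.quotient_finite_of_isOpen U hU
    have hs := size_sys U (hΔ i) ρ (hρ 0) hB σ₀ hσ₀
    have hs' := size_sys U (hΔ i) ρ' (hρ 1) hB' σ₀ hσ₀
    have hl := size_lim hs.1 h1 h2 h3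
    have hl' := size_lim hs'.1 h1' h2' h3'
    by_contra hcon
    rw [not_nonempty_iff] at hcon
    have := row_unique U ρρ hρ (hR1 i) hU ![τ, τ'] σ₀ hσ₀
      (x := fun _ k => ![size B τ, size B' τ'] k) (fun _ k => by
        fin_cases k
        · exact hs.2
        · exact hs'.2) (fun _ k => ![m, m'] k) (fun _ k => by
        fin_cases k
        · exact hl
        · exact hl') (i := ()) (k := 0) (l := 1) hirr hirr' (by decide) (fun _ => hcon) hm0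
    exact hm0' this
  · obtain ⟨B, hB, Λ, h1, h2, h3⟩ := hm
    obtain ⟨B', hB', Λ', h1', h2', h3'⟩ := hm'
    obtain ⟨U, hUn, hU, hρ⟩ := exists_common (κ := Unit) (n := fun _ => n) (fun _ => ρ) fun _ => hA
    have hfin : Finite (GK ℚ ⧸ U) := Subgroup.quotient_finite_of_isOpen U hU
    have hs := size_sys U (hΔ i) ρ (hρ ()) hB σ₀ hσ₀
    have hs' := size_sys U (hΔ j) ρ (hρ ()) hB' σ₀ hσ₀
    have hl := size_lim hs.1 h1 h2 h3
    have hl' := size_lim hs'.1 h1' h2' h3'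
    have hR2 : MeanOne (F := ℚ) fun t : Fin 2 =>
        Pool.Agent.Y722.EP.rE (![a i, a j] t) (![b i, b j] t) :=
      meanOne ![a i, a j] ![b i, b j] (fun t => by
        fin_cases t
        · exact hmod i
        · exact hmod j) (fun t u h => by
        fin_cases t <;> fin_cases u
        · exact absurd rfl h
        · exact hne i j hij
        · exact hne j i (Ne.symm hij)
        · exact absurd rfl h) (fun t => by
        fin_cases t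
        · exact hΔ i
        · exact hΔ j)
    exact col_unique U (fun _ : Unit => ρ) hρ hR2 hU (fun _ => τ) σ₀ hσ₀
      (x := fun t _ => ![size B τ, size B' τ] t) (fun t _ => by
        fin_cases t
        · exact hs.2
        · exact hs'.2) (fun t _ => ![m, m'] t) (fun t _ => by
        fin_cases t
        · exact hl
        · exact hl') (i := 0) (j := 1) (by decide) (k := ()) hirr

end Pool.Agent.Results.MP_bf9450_nt.ArtinTwists
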